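import Pool.Agent.H23.Eq1

set_option autoImplicit false

namespace Pool.Agent.Results.MP_59918e_co.Cex
open Finset Pool.Agent.H23.Eq

/-- `S` is an inclusion-maximal stable set -/
def MaxStable {V : Type} (G : SimpleGraph V) (S : Finset V) : Prop :=
  Maximal (fun s : Finset V => G.IsIndepSet (s : Set V)) S

/-- `C` is an inclusion-maximal clique -/
def MaxClique {V : Type} (G : SimpleGraph V) (C : Finset V) : Prop :=
  Maximal (fun s : Finset V => G.IsClique (s : Set V)) C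

/-- nonnegative weights under which the maximal stable sets are exactly the sets of weight one -/
def Equistable {V : Type} (G : SimpleGraph V) : Prop :=
  ∃ φ : V → ℝ, (∀ v, 0 ≤ φ v) ∧ ∀ S : Finset V, MaxStable G S ↔ ∑ v ∈ S, φ v = 1

/-- an edge covering family of maximal cliques and a non-edge covering family of maximal stable
sets that are cross-intersecting -/
def WeaklyCIS {V : Type} (G : SimpleGraph V) : Prop :=
  ∃ 𝒞 𝒮 : Set (Finset V), (∀ C ∈ 𝒞, MaxClique G C) ∧ (∀ S ∈ 𝒮, MaxStable G S) ∧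
    (∀ u v, G.Adj u v → ∃ C ∈ 𝒞, u ∈ C ∧ v ∈ C) ∧
    (∀ u v, u ≠ v → ¬ G.Adj u v → ∃ S ∈ 𝒮, u ∈ S ∧ v ∈ S) ∧
    ∀ C ∈ 𝒞, ∀ S ∈ 𝒮, ∃ v, v ∈ C ∧ v ∈ S

def ed (i : ℕ) : ℕ × ℕ := [(0, 1), (0, 4), (0, 5), (1, 7), (1, 8), (2, 4), (2, 5), (2, 7), (2, 8),
  (3, 5), (3, 6), (3, 7), (4, 6), (6, 8)].getD i (9, 9)
def mem (j i : ℕ) : Bool := (ed i).1 == j || (ed i).2 == j
def adj (x y : ℕ) : Bool := mem (ed x).1 y || mem (ed x).2 y
def w (i : ℕ) : ℕ := [89, 118, 133, 122, 129, 80, 67, 99, 94, 140, 81, 119, 142, 117].getD i 0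

def G : SimpleGraph (Fin 14) where
  Adj x y := adj x y = false
  symm := ⟨by decide +kernel⟩
  loopless := ⟨by decide +kernel⟩

theorem result : ∃ (n : ℕ) (G : SimpleGraph (Fin n)), Equistable G ∧ ¬ WeaklyCIS G := by
  have m := mx (G := G) (adj := adj) (mem := mem) (N := 9) (fun x y _ => by simp [G])
    (by decide +kernel) (by decide +kernel) (by decide +kernel)
  obtain ⟨φ, a, b⟩ := equi (mem := mem) (w := w) (n := 14) (N := 9) (lo := 67) (t := 340)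
    (by omega) (by omega) (by decide +kernel) (by decide +kernel) (by decide +kernel)
  refine ⟨14, G, ⟨φ, fun v => (a v).le, fun S => (m S).trans (b S)⟩, ?_⟩
  rintro ⟨𝒞, 𝒮, c, s, e, f, g⟩
  obtain ⟨C, h, -⟩ := e 0 5 (by simp only [G]; decide)
  refine odd (M := 9) (mem := mem) (by decide) (by decide +kernel) C fun j i => ?_
  obtain ⟨u, v, d, k⟩ := (by decide +kernel : ∀ j < 9, ∃ u v : Fin 14, (u ≠ v ∧ adj u v = true) ∧
    ∀ j' < 9, u ∈ A mem 14 j' → v ∈ A mem 14 j' → j' = j) j i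
  obtain ⟨S, s1, s2, s3⟩ := f u v d.1 (by simp [G, d.2])
  obtain ⟨j', l, rfl⟩ := (m S).1 (s S s1)
  obtain rfl := k j' l s2 s3
  obtain ⟨x, x1, x2⟩ := g C h _ s1
  refine card_eq_one.2 ⟨x, eq_singleton_iff_unique_mem.2 ⟨mem_inter.2 ⟨x1, x2⟩, fun y z => ?_⟩⟩
  by_contra o
  exact (s _ s1).1 (mem_inter.1 z).2 x2 o ((c C h).1 (mem_inter.1 z).1 x1 o)

end Pool.Agent.Results.MP_59918e_co.Cex
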